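import Pool.Agent.H34R.Dist
import Pool.Agent.Y885.WI3

/-!
# Sums of two distinct and almost equal odd primes and of very few elements of an arbitrary set which meets every
interval `[x, l x]`

Definitions used (in `Pool.Agent.H560R3.GB`): `C₂`: the twin prime constant
`∏_{p > 2} (1 - 1 / (p - 1) ^ 2)`; `sing m`: the singular series `2 C₂ ∏_{p ∣ m, p > 2} (p - 1) / (p - 2)`.

Used from the starting files: the theorem `Pool.Agent.Y885.las_windows` on the formula of Hardy and Littlewood in
windows for integers which are corrected by few elements of such a set.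
-/

set_option autoImplicit false

namespace Pool.Agent.Results.MP_61161c_nt.ElementsOfAnySet

open Finset
open Pool.Agent.H560R3.GB (sing)

/-- The number of the `p` such that `p` and `p' = m - p` are odd primes, `p < p'` and `p' - p ≤ H`. -/
def pairs (m H : ℕ) : ℕ :=
  ((range m).filter (fun p => p.Prime ∧ p ≠ 2 ∧ (m - p).Prime ∧ m - p ≠ 2 ∧ p < m - p ∧ m - p ≤ p + H)).card

/-- For every `H` with `m / log ^ A m ≤ H ≤ m` there are distinct odd primes `p < p'` with `p + p' = m` and
`p' - p ≤ H`, and the number of these pairs is `sing m * H / (2 log ^ 2 m)` up to a relative error of at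
most `ε`. -/
def Holds (ε : ℝ) (A m : ℕ) : Prop :=
  ∀ H : ℕ, H ≤ m → (m : ℝ) / Real.log m ^ A ≤ H →
    (∃ p p' : ℕ, p.Prime ∧ p'.Prime ∧ p ≠ 2 ∧ p' ≠ 2 ∧ p < p' ∧ p + p' = m ∧ p' - p ≤ H) ∧
    |(pairs m H : ℝ) - sing m * H / (2 * Real.log m ^ 2)| ≤ ε * (sing m * H / (2 * Real.log m ^ 2))

/-- For every `l ≥ 2` and every `A` there is a constant `C` such that for all `B` and `ε > 0` there is an `N₀` with the
following property. Let `T` be an arbitrary set of integers which contains an element of every interval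
`[x, l x]`, `x ≥ 1` (the constants `C` and `N₀` do not depend on `T`). Then EVERY even integer `N ≥ N₀` is the sum
of an integer `m` and of at most `C (log log N) ^ 2` distinct elements of `T`, all between `log ^ B N` and
`N / log ^ B N`, where `m` has the following property: for every `H` with `m / log ^ A m ≤ H ≤ m` the integer `m` is a
sum of two distinct odd primes `p < p'` with `p' - p ≤ H`, and the number of these representations is
`sing m * H / (2 log ^ 2 m)`, up to a relative error of at most `ε`. -/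
theorem result (l : ℕ) (hl : 2 ≤ l) (A : ℕ) : ∃ C : ℝ, ∀ (B : ℕ) (ε : ℝ), 0 < ε → ∃ N₀ : ℕ, ∀ T : Set ℕ,
    (∀ x : ℕ, 1 ≤ x → ∃ t ∈ T, x ≤ t ∧ t ≤ l * x) → ∀ N : ℕ, N₀ ≤ N → Even N →
      ∃ S : Finset ℕ, (∀ t ∈ S, t ∈ T ∧ Real.log N ^ B ≤ t ∧ (t : ℝ) ≤ N / Real.log N ^ B) ∧
        (S.card : ℝ) ≤ C * Real.log (Real.log N) ^ 2 ∧ ∃ m : ℕ, m + ∑ t ∈ S, t = N ∧ Holds ε A m := by
  obtain ⟨C, hC⟩ := Pool.Agent.Y885.las_windows l hl (A + 1)
  refine ⟨C, fun B ε hε => ?_⟩
  obtain ⟨m₀, h0⟩ := Pool.Agent.H34R.Dist.holds_of A ε hε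
  exact hC B m₀ (min ε (1 / 2) / 2) (div_pos (lt_min hε (by norm_num)) (by norm_num)) (Holds ε A) h0

end Pool.Agent.Results.MP_61161c_nt.ElementsOfAnySet
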