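import Pool.Agent.V5helper23.KP.GB
import Pool.Agent.Results.MP_61161c_nt.DigitPermutations

/-!
# Sums of two distinct and almost equal odd primes in ALL arithmetic progressions with almost all differences

A maximal theorem (of the type of Kakeya): for almost all differences `u`, EVERY arithmetic progression with the
difference `u`, even of a length which is only a power of `log N`, consists of odd numbers and of sums of two distinct
almost equal odd primes (with the expected number of representations), up to few terms.

Definitions used: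
* `Pool.Agent.V5helper23.KP.Long`, `Pool.Agent.V5helper23.KP.Short`: the two kinds of families of patterns;
* `Pool.Agent.H373R2.T7.energy p n r`: the additive energy of order `p` of `r 1, ..., r n`: the number of solutions of
  `r (m 1) + ... + r (m p) = r (m' 1) + ... + r (m' p)`;
* in `Pool.Agent.H560R3.GB`: `sing m`: the singular series `2 C₂ ∏_{p ∣ m, p > 2} (p - 1) / (p - 2)`, where
  `C₂ = ∏_{p > 2} (1 - 1 / (p - 1) ^ 2)`.

The proof: by the inequality of Cauchy and Schwarz the exponential sum over the numbers `a(u) + b(w) + u w` is large only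
near few rational numbers with small denominators, whatever `a` and `b` are
(`Pool.Agent.V5helper23.KP.char_near`, `Pool.Agent.V5helper23.KP.pat_tlaw`); this is combined with the circle method for
random integers with a thin large spectrum of the starting files (`Pool.Agent.Y885.tl_win0`).
-/

set_option autoImplicit false

namespace Pool.Agent.Results.MP_61161c_nt.LineFamilies

open Finset Pool.Agent.H560R3.GB
open Pool.Agent.V5helper23.KP (Long Short)

/-- The number of the `p` such that `p` and `p' = m - p` are odd primes, `p < p'` and `p' - p ≤ H`. -/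
def pairs (m H : ℕ) : ℕ :=
  ((range m).filter (fun p => p.Prime ∧ p ≠ 2 ∧ (m - p).Prime ∧ m - p ≠ 2 ∧ p < m - p ∧ m - p ≤ p + H)).card

/-- For every `H` with `m / log ^ A m ≤ H ≤ m` there are distinct odd primes `p < p'` with `p + p' = m` and
`p' - p ≤ H`, and the number of these pairs is `sing m * H / (2 log ^ 2 m)` up to a relative error of at
most `ε`. -/
def Holds (ε : ℝ) (A m : ℕ) : Prop :=
  ∀ H : ℕ, H ≤ m → (m : ℝ) / Real.log m ^ A ≤ H →
    (∃ p p' : ℕ, p.Prime ∧ p'.Prime ∧ p ≠ 2 ∧ p' ≠ 2 ∧ p < p' ∧ p + p' = m ∧ p' - p ≤ H) ∧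
    |(pairs m H : ℝ) - sing m * H / (2 * Real.log m ^ 2)| ≤ ε * (sing m * H / (2 * Real.log m ^ 2))

open Classical in
/-- The number of the `1 ≤ m ≤ n` for which there is ANY integer `a` such that the pattern `a + b(w) + r(m) w`, `w ∈ S`,
lies in `[-N, N]` and has more than `#S / log ^ U N` members `y` which are even, at least `N / log ^ W N`, and without
the property `Holds`. -/
noncomputable def exceptions (ε : ℝ) (A U W N n : ℕ) (b : ℤ → ℤ) (r : ℕ → ℤ) (S : Finset ℤ) : ℕ :=
  ((Icc 1 n).filter (fun m => ∃ a : ℤ, (∀ w ∈ S, |a + b w + r m * w| ≤ N) ∧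
    (S.card : ℝ) / Real.log N ^ U < (S.filter (fun w => Even (a + b w + r m * w) ∧
      (N : ℝ) / Real.log N ^ W ≤ ((a + b w + r m * w : ℤ) : ℝ) ∧ ¬ Holds ε A (a + b w + r m * w).toNat)).card)).card

/-- Let `A`, `U`, `W` and `ε > 0` be fixed. There is a constant `B`, and for all `C` and `p` there is a constant `B'`, such
that the following holds for every large `N`.

Consider the patterns `a + b(w) + r(m) w`, `w ∈ S`, for `1 ≤ m ≤ n`, where the translation `a` and the function `b` are
arbitrary and the differences `r(m)` and the set `S` of integers are of one of the following kinds: either (`Long`) the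
differences are the elements of an interval of `n ≥ log ^ B' N` integers, and `S`, with at least `log ^ B N` elements, is
a subset of relative density at least `1 / log ^ C N` of an interval of at least `N / (n log ^ C N)` integers; or
(`Short`) the differences `|r(m)| ≤ N` are arbitrary integers of nearly minimal additive energy of order `p` (by the last
assertion one may take the values `r(m) = f(m)` of any nonconstant polynomial, `n` at least `(N / log ^ C N) ^ (1 / deg f)`)
and `S` has at least `log ^ B N` elements and diameter at most `2 log ^ C N`. For `b = 0`, `S = {1, ..., l}` the patterns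
are the arithmetic progressions with `l` terms and the difference `r(m)`; `l` may be as small as `log ^ B N`.

For all but at most `n / log ^ U N` of the `m ≤ n` the following holds for EVERY integer `a` for which the pattern lies in
`[-N, N]`: all the even members `y ≥ N / log ^ W N` of the pattern, with at most `#S / log ^ U N` exceptions, are sums of
two distinct odd primes `p < p'`, even with `p' - p ≤ H` for every `H` with `y / log ^ A y ≤ H ≤ y`, and the number of
these representations is as predicted, up to a relative error of at most `ε`. -/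
theorem result (A U W : ℕ) (ε : ℝ) (hε : 0 < ε) :
    (∃ B : ℕ, ∀ C p : ℕ, ∃ B' N₀ : ℕ, ∀ N : ℕ, N₀ ≤ N →
      ∀ (n : ℕ) (r : ℕ → ℤ) (S : Finset ℤ), (Long B B' C N n r S ∨ Short p B C N n r S) → ∀ b : ℤ → ℤ,
      (exceptions ε A U W N n b r S : ℝ) ≤ n / Real.log N ^ U) ∧
    (∀ f : Polynomial ℤ, 1 ≤ f.natDegree → ∃ p : ℕ, ∀ C : ℕ, ∃ N₀ : ℕ, ∀ N : ℕ, N₀ ≤ N → ∀ n : ℕ,
      (N : ℝ) ≤ Real.log N ^ C * (n : ℝ) ^ f.natDegree →
      (Pool.Agent.H373R2.T7.energy p n (fun m => f.eval (m : ℤ)) : ℝ) * N ≤ Real.log N ^ (C + 1) * (n : ℝ) ^ (2 * p)) := by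
  classical
  refine ⟨?_, Pool.Agent.V5helper23.KP.poly_energy⟩
  obtain ⟨m₀, hm₀⟩ := MP_61161c_nt.DigitPermutations.holds_of A ε hε
  obtain ⟨B, hB⟩ := Pool.Agent.V5helper23.KP.gb_core (A + 1) W U m₀ (min ε (1 / 2) / 2)
    (div_pos (lt_min hε (by norm_num)) (by norm_num)) (Holds ε A) hm₀
  refine ⟨B, fun C p => ?_⟩
  obtain ⟨B', X₀, h⟩ := hB C p
  obtain ⟨n3, h3⟩ := Pool.Agent.H373R2.T7.ev_L' ((1 : ℕ) : ℝ)
  refine ⟨B', X₀ + n3 + 2, fun N hN n r S hfam b => ?_⟩
  have hL := h3 N (by omega)
  push_cast at hL
  have hN0 : (0 : ℝ) < N := by exact_mod_cast (by omega : 0 < N)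
  refine h N (by omega) n r S hfam b _ (filter_subset _ _) ?_
  intro m hm
  rw [mem_filter] at hm
  obtain ⟨_, a, g1, g2⟩ := hm
  refine ⟨a, g1, _, filter_subset _ _, g2, ?_⟩
  intro w hw
  rw [mem_filter] at hw
  obtain ⟨_, g3, g4, g5⟩ := hw
  have hpos : (0 : ℝ) < ((a + b w + r m * w : ℤ) : ℝ) := lt_of_lt_of_le (by positivity) g4
  refine ⟨by exact_mod_cast hpos, even_iff_two_dvd.1 g3, g4, g5⟩

end Pool.Agent.Results.MP_61161c_nt.LineFamilies
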