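import Pool.Agent.V5helper54.CS.Cons2

/-!
# Several even numbers as sums of two distinct odd primes with a common first summand, or with consecutive primes as
first summands, or with arbitrarily linked first summands from an arbitrary dense set

Let `N_1, …, N_k` be given even numbers. The question asks (for `k = 1`) for a representation `N = p + q` with distinct odd
primes. Here the first summands of the representations `N_i = p^(i) + q^(i)`, `i ≤ k`, are linked: `p^(i) = σ_i(s)`, where
`s` runs through a set `S` of at least `x / log^A x` integers and `σ_1, …, σ_k` are ARBITRARY injective maps from `S` to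
the primes up to `x`. Examples: a common summand `p` from an arbitrary dense set of primes (`σ_i(p) = p`), arbitrary
permutations `σ_i` of the primes up to `x`, or `p^(i) = p_{n + a_i}` with fixed `a_i`: the first summands are the
primes with the numbers `n + a_1, …, n + a_k`, for `a_i = i` these are `k` consecutive primes.

The `N_i = M m_i` are multiples of the product `M` of the primes `≤ y`, `y` between `K₀ log log x` and
`K₁ log log x` (so `M` is a power of `log x`), and `m = (m_1, …, m_k)` runs over an arbitrary box of windows in which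
`X_i ≤ N_i ≤ 2 X_i`, `x ≤ X_i ≤ x log^B x`; the windows for the `N_i` may be as short as `X_i^(1/3) log^D x`. For all
vectors `m` of the box but a proportion `ε`:

(1) at least `(1 - ε) #S / (V(y) log x)^k` of the `s ∈ S`, the expected number, are such that ALL
`N_i = σ_i(s) + q_i` are sums of two distinct odd primes;

(2) in the case `p^(i) = p_{n + a_i}`, `a_i ≤ x / log² x`, the number of the `n` with `p_{n + a_i} ≤ x` is at least
`(1 - ε) x / (V(y)^k log^(k+1) x)`, the expected number.

Proof. Short windows and arbitrary dense sets (helper51, `Pool.Agent.V5helper51.SG.Short`: an L¹ estimate for `Λ` minus a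
model along arbitrary weights in windows of length `x^(1/3) log^D x`), applied to the images of the dense sets under the
injections and iterated `k` times: for most `m_1` the expected proportion of the `s` is left, which is again a dense set; and
so on.
-/

set_option autoImplicit false

open Finset

namespace Pool.Agent.Results.MP_61161c_nt.LinkedSummands

/-- the product of `1 - 1/q` over the primes `q ≤ y` -/
noncomputable def V (y : ℕ) : ℝ := ∏ q ∈ (Icc 1 y).filter Nat.Prime, (1 - 1 / (q : ℝ))

/-- `N = p + (N - p)` is a sum of two distinct odd primes -/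
def Two (N p : ℕ) : Prop := p.Prime ∧ (N - p).Prime ∧ p ≠ 2 ∧ N - p ≠ 2 ∧ p ≠ N - p

/-- the vectors `m` with `w_i < m_i ≤ w_i + G_i` -/
def Box {k : ℕ} (w G : Fin k → ℕ) : Finset (Fin k → ℕ) := Fintype.piFinset fun i => Ioc (w i) (w i + G i)

open Classical in
/-- the `s ∈ S` such that all `N_i = σ_i(s) + q_i` are sums of two distinct odd primes -/
noncomputable def Linked {k : ℕ} (S : Finset ℕ) (σ : Fin k → ℕ → ℕ) (N : Fin k → ℕ) : Finset ℕ :=
  S.filter (fun s => ∀ i, Two (N i) (σ i s))

open Classical in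
/-- the `n` such that, for all `i`, the prime `p_{n + a_i}` (where `p_0 = 2`) is at most `x` and `N_i = p_{n + a_i} + q_i` is a sum of
two distinct odd primes (`p_n ≤ x` implies `n < x`) -/
noncomputable def Numbered {k : ℕ} (x : ℕ) (a N : Fin k → ℕ) : Finset ℕ :=
  (range x).filter (fun n => ∀ i, Nat.nth Nat.Prime (n + a i) ≤ x ∧ Two (N i) (Nat.nth Nat.Prime (n + a i)))

open Classical in
/-- **Main result.** See the text above. -/
theorem result (k A B : ℕ) (ε : ℝ) (hε : 0 < ε) (hε1 : ε ≤ 1) : ∃ K₀ : ℕ, ∀ K₁ : ℕ, ∃ D x₀ : ℕ, ∀ x : ℕ, x₀ ≤ x →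
    ∀ y : ℕ, K₀ * Real.log (Real.log x) ≤ y → y ≤ K₁ * Real.log (Real.log x) →
    ∀ X w G : Fin k → ℕ, (∀ i, x ≤ X i ∧ (X i : ℝ) ≤ x * Real.log x ^ B ∧
      X i ≤ primorial y * w i ∧ primorial y * (w i + G i) ≤ 2 * X i ∧
      (X i : ℝ) ^ (1 / 3 : ℝ) * Real.log x ^ D ≤ primorial y * G i) →
    (∀ (S : Finset ℕ) (σ : Fin k → ℕ → ℕ), (∀ i, Set.InjOn (σ i) S) → (∀ i, ∀ s ∈ S, (σ i s).Prime ∧ σ i s ≤ x) →
      (x : ℝ) / Real.log x ^ A ≤ S.card →
      (((Box w G).filter (fun m => ((Linked S σ (fun i => primorial y * m i)).card : ℝ) <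
        (1 - ε) * (S.card / (V y * Real.log x) ^ k))).card : ℝ) ≤ ε * ∏ i, (G i : ℝ)) ∧
    ∀ a : Fin k → ℕ, (∀ i, (a i : ℝ) ≤ x / Real.log x ^ 2) →
      (((Box w G).filter (fun m => ((Numbered x a (fun i => primorial y * m i)).card : ℝ) <
        (1 - ε) * (x / (V y ^ k * Real.log x ^ (k + 1))))).card : ℝ) ≤ ε * ∏ i, (G i : ℝ) := by
  obtain ⟨K0, hK0⟩ := Pool.Agent.V5helper54.CS.gold_main k A B ε hε hε1
  obtain ⟨K0', hK0'⟩ := Pool.Agent.V5helper54.CS.cons_main k B ε hε hε1
  refine ⟨max K0 K0', fun K1 => ?_⟩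
  obtain ⟨D, x0, hx0⟩ := hK0 K1
  obtain ⟨D', x0', hx0'⟩ := hK0' K1
  obtain ⟨x1, hx1⟩ := Pool.Agent.H373R2.T7.ev_L' 1
  refine ⟨max D D', max x0 (max x0' x1), fun x hx y hy1 hy2 X w G hX => ?_⟩
  have b0 : x0 ≤ x := le_trans (le_max_left _ _) hx
  have b1 : x0' ≤ x := le_trans (le_trans (le_max_left _ _) (le_max_right _ _)) hx
  have b2 : x1 ≤ x := le_trans (le_trans (le_max_right _ _) (le_max_right _ _)) hx
  have hL := hx1 x b2
  have hL0 : 0 < Real.log x := by linarith
  have hll : 0 ≤ Real.log (Real.log x) := Real.log_nonneg hL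
  have hy1' : (K0 : ℝ) * Real.log (Real.log x) ≤ y := by
    refine le_trans ?_ hy1
    exact mul_le_mul_of_nonneg_right (by exact_mod_cast le_max_left _ _) hll
  have hy1'' : (K0' : ℝ) * Real.log (Real.log x) ≤ y := by
    refine le_trans ?_ hy1
    exact mul_le_mul_of_nonneg_right (by exact_mod_cast le_max_right _ _) hll
  refine ⟨fun S σ hσ hσp hSc => ?_, fun a ha => ?_⟩
  · have h := hx0 x b0 y hy1' hy2 X w G (fun i => ⟨(hX i).1, (hX i).2.1⟩)
      (fun i => ⟨(hX i).2.2.1, (hX i).2.2.2.1, by
        refine le_trans ?_ (hX i).2.2.2.2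
        apply mul_le_mul_of_nonneg_left _ (by positivity)
        exact pow_le_pow_right₀ hL (le_max_left _ _)⟩) S σ hσ hσp (by
        rwa [div_le_iff₀ (by positivity)] at hSc)
    refine le_trans (le_of_eq ?_) h
    unfold Box Linked
    congr!
  · have h := hx0' x b1 y hy1'' hy2 X w G (fun i => ⟨(hX i).1, (hX i).2.1⟩)
      (fun i => ⟨(hX i).2.2.1, (hX i).2.2.2.1, by
        refine le_trans ?_ (hX i).2.2.2.2
        apply mul_le_mul_of_nonneg_left _ (by positivity)
        exact pow_le_pow_right₀ hL (le_max_right _ _)⟩) a ha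
    refine le_trans (le_of_eq ?_) h
    unfold Box Numbered
    congr!

end Pool.Agent.Results.MP_61161c_nt.LinkedSummands
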