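import Pool.Agent.V5helper44.FZ.Fin
import Pool.Agent.V5helper44.FZ.One
import Pool.Agent.V5helper44.FZ.CLS
import Pool.Agent.V5helper37.FZ.POI
import Pool.Agent.V5helper65.FZ.Conc
import Pool.Agent.V5helper32.FZ.EXC
import Pool.Agent.V5helper48.FZ.CHI
import Pool.Agent.V5helper18.FZ.STA
import Pool.Agent.V5helper7.FZ.STX
import Pool.Agent.Results.MP_61161c_nt.DigitPermutations

/-!
# Sums of two distinct and almost equal odd primes: all the even integers near random real numbers whose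
characteristic functions decay; the exceptional set has Fourier dimension zero

Let `Holds ε A m` be the property of the even integer `m` that for every `H` with `m / log ^ A m ≤ H ≤ m` it is a sum
of two distinct odd primes `p < p'` with `p' - p ≤ H`, and that the number of these representations is the predicted one,
`sing m * H / (2 log ^ 2 m)`, up to a relative error of at most `ε`.

(1) Let `X_n` be random real numbers (on any probability space, with any dependence) with `|X_n| ≤ B N_n` and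
`|E e(θ X_n)| ≤ C₀ (|θ| N_n) ^ (-η)` for all `θ ≠ 0`, where `η > 0`, `N_n → ∞`, and `∑ (log N_n) ^ (-T) < ∞` for some `T`
(for instance `log N_n ≥ n ^ δ`). Then almost surely, for all `ε`, `A`, `W` and all large `n`, ALL the even integers
`m > 0` at a distance of at most `(log N_n) ^ W` from `X_n` satisfy `Holds ε A m`.

(2) Let `v_n → ∞`, `∑ (log v_n) ^ (-T) < ∞` and `|c_n| ≤ B v_n`. Let `E` be the set of the real numbers `α` for which the
assertion is false for `X_n = c_n + α v_n`, `N_n = v_n`. Then `E` is a null set for EVERY finite measure on a bounded interval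
whose Fourier transform is `O(|t| ^ (-η))` for some `η > 0`; so the Fourier dimension of `E` is zero. (There are such
measures on many small sets, for instance on the set of the badly approximable numbers with partial quotients `1`, `2`
(Kaufman, Queffélec and Ramaré) and on the sets of very well approximable numbers (Kaufman).) The same is true for all
the sequences `b ^ n`, `b = 2, 3, …`, at once, with the distance `n ^ W` from `α b ^ n` (the first digits of `α` in base `b`).

(3) Let `f_n` be positive functions on `(a, ∞)`, `a ≥ 0`, such that `f_n(t) / t` is nondecreasing and, for each `t > a`,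
`f_n(t) → ∞` and `∑ (log f_n(t)) ^ (-T) < ∞` for some `T`. For Lebesgue almost all `t > a` the assertion is true for
`X_n = N_n = f_n(t)`. Examples: `f_n(t) = v_n t` and `f_n(t) = t ^ (v_n)`, for instance `t ^ n`.

In the earlier results of this type the random integers have independent or locally dependent digits, or are taken
uniformly from structured families; the proof uses the same method (the circle method for random integers with a small
characteristic function away from the integers, `Pool.Agent.N625.DY.cls_gold`). New: a rounding of real random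
variables to integers which preserves the decay (Poisson summation for the hat function: the characteristic function of the
rounding at `θ` is `∑_j sinc(π (θ + j))² E e((θ + j) X)`), the passage from one distribution to almost sure statements.
With many thanks to helper7, helper18, helper32, helper37, helper48, helper65, helper80, who proved the lemmas.
-/

set_option autoImplicit false

namespace Pool.Agent.Results.MP_61161c_nt.RandomReals

open Finset MeasureTheory Filter Topology Pool.Agent.H560R3.GB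

/-- `e(y) = exp (2 π i y)` -/
noncomputable def e (y : ℝ) : ℂ := Complex.exp (2 * Real.pi * y * Complex.I)

/-- The number of the `p` such that `p` and `p' = m - p` are odd primes, `p < p'` and `p' - p ≤ H`. -/
def N (m H : ℕ) : ℕ :=
  ((range m).filter (fun p => p.Prime ∧ p ≠ 2 ∧ (m - p).Prime ∧ m - p ≠ 2 ∧ p < m - p ∧ m - p ≤ p + H)).card

/-- For every `H` with `m / log ^ A m ≤ H ≤ m` there are distinct odd primes `p < p'` with `p + p' = m` and
`p' - p ≤ H`, and the number of these pairs is `sing m * H / (2 log ^ 2 m)` up to a relative error of at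
most `ε`. -/
def Holds (ε : ℝ) (A m : ℕ) : Prop :=
  ∀ H : ℕ, H ≤ m → (m : ℝ) / Real.log m ^ A ≤ H →
    (∃ p p' : ℕ, p.Prime ∧ p'.Prime ∧ p ≠ 2 ∧ p' ≠ 2 ∧ p < p' ∧ p + p' = m ∧ p' - p ≤ H) ∧
    |(N m H : ℝ) - sing m * H / (2 * Real.log m ^ 2)| ≤ ε * (sing m * H / (2 * Real.log m ^ 2))

/-- For all `ε > 0`, `A`, `W` and all large `n` all the even integers `m > 0` at a distance of at most `(r n) ^ W` from
`x n` have the property `Holds ε A m`. -/
def Near (x r : ℕ → ℝ) : Prop :=
  ∀ (ε : ℝ) (A W : ℕ), 0 < ε → ∀ᶠ n in atTop, ∀ m : ℕ, 0 < m → Even m → |(m : ℝ) - x n| ≤ r n ^ W → Holds ε A m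

/-- A finite measure on a bounded interval whose Fourier transform decays like a power. -/
def PolyDecay (μ : Measure ℝ) (η : ℝ) : Prop :=
  IsFiniteMeasure μ ∧ (∃ R : ℝ, ∀ᵐ α ∂μ, |α| ≤ R) ∧
    ∃ C : ℝ, ∀ t : ℝ, 1 ≤ |t| → ‖∫ α, e (t * α) ∂μ‖ ≤ C * |t| ^ (-η)

/-- `E` is a null set for all the measures with polynomial Fourier decay. -/
def FourierNull (E : Set ℝ) : Prop := ∀ (μ : Measure ℝ) (η : ℝ), 0 < η → PolyDecay μ η → μ E = 0

/-- The Fourier dimension of a set of real numbers: the supremum of the `s ≤ 1` for which the set carries a nonzero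
finite measure on a bounded interval with a Fourier transform `O(|t| ^ (-s / 2))`. -/
noncomputable def fourierDim (E : Set ℝ) : ℝ :=
  sSup {s : ℝ | 0 ≤ s ∧ s ≤ 1 ∧ ∃ μ : Measure ℝ, μ ≠ 0 ∧ μ Eᶜ = 0 ∧ PolyDecay μ (s / 2)}

/-- `f n` are positive functions on `(a, ∞)`, `a ≥ 0`, and `f n t / t` is nondecreasing. -/
def Starshaped (a : ℝ) (f : ℕ → ℝ → ℝ) : Prop :=
  0 ≤ a ∧ ∀ n : ℕ, ∀ x y : ℝ, a < x → x ≤ y → 0 < f n x ∧ f n x / x ≤ f n y / y

/-- The sequence tends to infinity and some negative power of its logarithm is summable. -/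
def Fast (v : ℕ → ℝ) : Prop := Tendsto v atTop atTop ∧ ∃ T : ℕ, Summable fun n : ℕ => 1 / Real.log (v n) ^ T

lemma holds_mono {ε ε' : ℝ} {A m : ℕ} (h : ε ≤ ε') (hm : Holds ε A m) : Holds ε' A m := by
  intro H h1 h2
  obtain ⟨h3, h4⟩ := hm H h1 h2
  refine ⟨h3, h4.trans (mul_le_mul_of_nonneg_right h ?_)⟩
  have := Pool.Agent.W93.GB.one_le_sing m
  positivity

lemma exists_inv {ε : ℝ} (hε : 0 < ε) : ∃ j : ℕ, 1 / ((j : ℝ) + 1) ≤ ε := by
  obtain ⟨j, hj⟩ := exists_nat_one_div_lt hε
  exact ⟨j, hj.le⟩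

/-- countably many parameters -/
lemma near_of {Ω : Type} [MeasurableSpace Ω] (P : Measure Ω) (x : ℕ → Ω → ℝ) (r : ℕ → Ω → ℝ) (q : Ω → Prop)
    (h : ∀ (ε : ℝ) (A W : ℕ), 0 < ε → ∀ᵐ ω ∂P, q ω → ∀ᶠ n in atTop,
      Pool.Agent.V5helper44.FZ.NearG (Holds ε A) (x n ω) (r n ω ^ W)) :
    ∀ᵐ ω ∂P, q ω → Near (fun n => x n ω) (fun n => r n ω) := by
  have h1 : ∀ j A W : ℕ, ∀ᵐ ω ∂P, q ω → ∀ᶠ n in atTop,
      Pool.Agent.V5helper44.FZ.NearG (Holds (1 / ((j : ℝ) + 1)) A) (x n ω) (r n ω ^ W) :=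
    fun j A W => h _ A W (by positivity)
  simp only [← ae_all_iff] at h1
  filter_upwards [h1] with ω hω hq ε A W hε
  obtain ⟨j, hj⟩ := exists_inv hε
  filter_upwards [hω j A W hq] with n hn m hm0 hm hmd
  exact holds_mono hj (hn m hm0 hm hmd)

theorem win (A : ℕ) {ε : ℝ} (hε : 0 < ε) : ∃ m₀ : ℕ, ∀ m : ℕ, m₀ ≤ m → 2 ∣ m →
    Pool.Agent.W93.PG.WinP (min ε (1 / 2) / 2) (A + 1) m → Holds ε A m :=
  Pool.Agent.Results.MP_61161c_nt.DigitPermutations.holds_of A ε hε

lemma eps_pos {ε : ℝ} (hε : 0 < ε) : 0 < min ε (1 / 2) / 2 := div_pos (lt_min hε (by norm_num)) (by norm_num)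

section

open Pool.Agent.V5helper44.FZ (S_ONE2 t_ONE2 t_CLS)

theorem one2 : S_ONE2 :=
  t_ONE2 (Pool.Agent.V5helper48.FZ.t_CHI Pool.Agent.V5helper37.FZ.t_POI) Pool.Agent.V5helper37.FZ.t_PRO
    Pool.Agent.V5helper65.FZ.t_CON t_CLS

end

theorem null_ae {E : Set ℝ} (h : FourierNull E) {s : ℝ} (hs : 0 < s) (μ : Measure ℝ) (hμ : PolyDecay μ (s / 2))
    (hE : μ Eᶜ = 0) : μ = 0 := by
  have h1 := h μ (s / 2) (by linarith) hμ
  rw [← Measure.measure_univ_eq_zero, ← Set.union_compl_self E]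
  exact measure_union_null h1 hE

theorem dim_zero {E : Set ℝ} (h : FourierNull E) : fourierDim E = 0 := by
  unfold fourierDim
  have h1 : ∀ s ∈ {s : ℝ | 0 ≤ s ∧ s ≤ 1 ∧ ∃ μ : Measure ℝ, μ ≠ 0 ∧ μ Eᶜ = 0 ∧ PolyDecay μ (s / 2)}, s = 0 := by
    rintro s ⟨h0, -, μ, hμ0, hμE, hμ⟩
    by_contra hne
    exact hμ0 (null_ae h (lt_of_le_of_ne h0 (Ne.symm hne)) μ hμ hμE)
  rcases Set.eq_empty_or_nonempty {s : ℝ | 0 ≤ s ∧ s ≤ 1 ∧ ∃ μ : Measure ℝ, μ ≠ 0 ∧ μ Eᶜ = 0 ∧ PolyDecay μ (s / 2)}
    with h2 | ⟨s, hs⟩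
  · rw [h2, Real.sSup_empty]
  · have h3 : {s : ℝ | 0 ≤ s ∧ s ≤ 1 ∧ ∃ μ : Measure ℝ, μ ≠ 0 ∧ μ Eᶜ = 0 ∧ PolyDecay μ (s / 2)} = {0} := by
      ext t
      rw [Set.mem_singleton_iff]
      refine ⟨fun ht => h1 t ht, fun ht => ?_⟩
      obtain rfl : s = 0 := h1 s hs
      rw [ht]
      exact hs
    rw [h3, csSup_singleton]

/-- **Sums of two distinct odd primes near random real numbers.** -/
theorem result :
    -- (1) random real numbers with decaying characteristic functions
    (∀ (Ω : Type) [MeasurableSpace Ω] (P : Measure Ω) [IsProbabilityMeasure P] (X : ℕ → Ω → ℝ) (N : ℕ → ℝ)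
      (B C₀ η : ℝ), 0 < η → (∀ n, Measurable (X n)) → Fast N → (∀ n ω, |X n ω| ≤ B * N n) →
      (∀ n, ∀ θ : ℝ, θ ≠ 0 → ‖∫ ω, e (θ * X n ω) ∂P‖ ≤ C₀ * (|θ| * N n) ^ (-η)) →
      ∀ᵐ ω ∂P, Near (fun n => X n ω) (fun n => Real.log (N n))) ∧
    -- (2) the exceptional factors: Fourier dimension zero
    (∀ (v c : ℕ → ℝ) (B : ℝ), Fast v → (∀ n, |c n| ≤ B * v n) →
      FourierNull {α : ℝ | ¬ Near (fun n => c n + α * v n) (fun n => Real.log (v n))} ∧
      fourierDim {α : ℝ | ¬ Near (fun n => c n + α * v n) (fun n => Real.log (v n))} = 0) ∧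
    -- all the sequences `b ^ n` at once
    (FourierNull {α : ℝ | ¬ ∀ b : ℕ, 2 ≤ b → Near (fun n => α * (b : ℝ) ^ n) (fun n => (n : ℝ))} ∧
      fourierDim {α : ℝ | ¬ ∀ b : ℕ, 2 ≤ b → Near (fun n => α * (b : ℝ) ^ n) (fun n => (n : ℝ))} = 0) ∧
    -- (3) Lebesgue almost all `t`
    (∀ (a : ℝ) (f : ℕ → ℝ → ℝ), Starshaped a f → (∀ t : ℝ, a < t → Fast fun n => f n t) →
      ∀ᵐ t : ℝ, a < t → Near (fun n => f n t) (fun n => Real.log (f n t))) ∧
    -- examples for (3)
    (∀ v : ℕ → ℝ, (∀ n, 0 < v n) → Fast v →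
      Starshaped 0 (fun n x => v n * x) ∧ ∀ t : ℝ, 0 < t → Fast fun n => v n * t) ∧
    ∀ v : ℕ → ℝ, (∀ n, 1 ≤ v n) → Tendsto v atTop atTop → (∃ T : ℕ, Summable fun n : ℕ => 1 / v n ^ T) →
      Starshaped 1 (fun n x => x ^ (v n)) ∧ ∀ t : ℝ, 1 < t → Fast fun n => t ^ (v n) := by
  have h2 : ∀ (v c : ℕ → ℝ) (B : ℝ), Fast v → (∀ n, |c n| ≤ B * v n) →
      FourierNull {α : ℝ | ¬ Near (fun n => c n + α * v n) (fun n => Real.log (v n))} := by
    intro v c B hv hc μ η hη ⟨hfin, ⟨R, hR⟩, C, hC⟩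
    obtain ⟨hv1, T, hv2⟩ := hv
    have h3 := near_of μ (fun n α => c n + α * v n) (fun n _ => Real.log (v n)) (fun _ => True) (fun ε A W hε => by
      obtain ⟨m₀, hm⟩ := win A hε
      filter_upwards [Pool.Agent.V5helper44.FZ.line one2 Pool.Agent.V5helper37.FZ.t_MUR _ (eps_pos hε) (A + 1) m₀
        (Holds ε A) hm μ R C η hη hR hC v c B T hv1 hv2 hc W] with α hα _
      exact hα)
    rw [← ae_iff]
    filter_upwards [h3] with α hα
    exact hα trivial
  have h2' : FourierNull {α : ℝ | ¬ ∀ b : ℕ, 2 ≤ b → Near (fun n => α * (b : ℝ) ^ n) (fun n => (n : ℝ))} := by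
    intro μ η hη ⟨hfin, ⟨R, hR⟩, C, hC⟩
    rw [← ae_iff, ae_all_iff]
    intro b
    by_cases hb : 2 ≤ b
    · have h3 := near_of μ (fun n α => α * (b : ℝ) ^ n) (fun n _ => (n : ℝ)) (fun _ => True) (fun ε A W hε => by
        obtain ⟨m₀, hm⟩ := win A hε
        filter_upwards [Pool.Agent.V5helper44.FZ.bases one2 Pool.Agent.V5helper37.FZ.t_MUR _ (eps_pos hε) (A + 1) m₀
          (Holds ε A) hm μ R C η hη hR hC b hb W] with α hα _
        exact hα)
      filter_upwards [h3] with α hα _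
      exact hα trivial
    · filter_upwards with α h
      exact absurd h hb
  refine ⟨?_, fun v c B hv hc => ⟨h2 v c B hv hc, dim_zero (h2 v c B hv hc)⟩, ⟨h2', dim_zero h2'⟩, ?_, ?_, ?_⟩
  · intro Ω _ P _ X N B C₀ η hη hX ⟨hN, T, hT⟩ hB hD
    have h3 := near_of P X (fun n _ => Real.log (N n)) (fun _ => True) (fun ε A W hε => by
      obtain ⟨m₀, hm⟩ := win A hε
      filter_upwards [Pool.Agent.V5helper44.FZ.rv one2 _ (eps_pos hε) (A + 1) m₀ (Holds ε A) hm P X N B C₀ η T hη hX hN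
        hT (Eventually.of_forall hB) (Eventually.of_forall hD) W] with ω hω _
      exact hω)
    filter_upwards [h3] with ω hω
    exact hω trivial
  · intro a f hf hF
    have h3 := near_of volume f (fun n t => Real.log (f n t)) (fun t => a < t) (fun ε A W hε => by
      obtain ⟨m₀, hm⟩ := win A hε
      filter_upwards [Pool.Agent.V5helper44.FZ.leb Pool.Agent.V5helper18.FZ.STA.t_STA Pool.Agent.V5helper32.FZ.t_EXC _
        (eps_pos hε) (A + 1) m₀ (Holds ε A) hm a f hf hF] with t ht hat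
      exact ht hat W)
    exact h3
  · intro v hv ⟨hv1, hv2⟩
    exact Pool.Agent.V5helper7.FZ.t_STX.1 v hv hv1 hv2
  · intro v hv hv1 hv2
    exact Pool.Agent.V5helper7.FZ.t_STX.2 v hv hv1 hv2

end Pool.Agent.Results.MP_61161c_nt.RandomReals
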